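import Pool.Agent.InnerSeries.Disc

open Filter Topology Metric Pool.Agent.InnerSeries

namespace Pool.Agent.Results.MP_f48be4_an.NoRadialLimit

/-- **Negative answer to Q1 of MP_f48be4_an.** There are an inner function `f` with `f 0 = 0` which is
not a rotation, coefficients `a_n` (`n ≥ 1`) such that `F = ∑ a_n f^n` is analytic in the unit disc,
and a point `ξ` of the unit circle at which every iterate `f^n` has a radial limit `b_n` and the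
series `∑ a_n b_n` converges, while `F (r ξ)` has no limit as `r → 1-`. -/
theorem result : ∃ (f : ℂ → ℂ) (a : ℕ → ℂ) (F : ℂ → ℂ) (ξ : ℂ) (b : ℕ → ℂ),
    IsInner f ∧ f 0 = 0 ∧ (¬ ∃ c : ℂ, ∀ z, ‖z‖ < 1 → f z = c * z) ∧
    (∀ z : ℂ, ‖z‖ < 1 → HasSum (fun n : ℕ => a (n + 1) * f^[n + 1] z) (F z)) ∧
    DifferentiableOn ℂ F (ball 0 1) ∧
    ‖ξ‖ = 1 ∧ (∀ n : ℕ, 1 ≤ n → RadialLimit (f^[n]) ξ (b n)) ∧
    (∃ S : ℂ, Tendsto (fun N => ∑ n ∈ Finset.range N, a (n + 1) * b (n + 1)) atTop (𝓝 S)) ∧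
    ¬ ∃ L : ℂ, RadialLimit F ξ L := by
  obtain ⟨f, a, h1, h2, h3, h4, h5, h6, h7, h8⟩ := main
  refine ⟨f, fun n => a (n - 1), fun z => ∑' n, a n * f^[n + 1] z, 1, fun _ => 1, h1, h2, h3,
    fun z hz => (h4 z hz).hasSum, h5, norm_one, fun n hn => ?_, ⟨0, h7⟩, h8⟩
  obtain ⟨m, rfl⟩ := Nat.exists_eq_add_of_le' hn
  exact h6 m

end Pool.Agent.Results.MP_f48be4_an.NoRadialLimit
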